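import Pool.Agent.W525.CB.Stm

/-! CB-POS: the positive statement (helper499). -/

open AlgebraicGeometry CategoryTheory Order

namespace Pool.Agent.W499.CB.POS

open Pool.Agent.H187R3 Pool.Agent.W525.CB

lemma ord_one0 {X : Scheme.{0}} [IsIntegral X] [IsLocallyNoetherian X] (y : X) :
    Scheme.ord (1 : X.functionField) y = 0 := by
  have h := Scheme.ord_mul (X := X) (x := y) (f := 1) (g := 1) one_ne_zero one_ne_zero
  rw [mul_one] at h
  omega

lemma ord_pow0 {X : Scheme.{0}} [IsIntegral X] [IsLocallyNoetherian X] (y : X)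
    {f : X.functionField} (hf : f ≠ 0) (r : ℕ) :
    Scheme.ord (f ^ r) y = r * Scheme.ord f y := by
  induction r with
  | zero => simp [ord_one0]
  | succ r ih =>
    rw [pow_succ, Scheme.ord_mul (pow_ne_zero r hf) hf, ih]
    push_cast
    ring

lemma ord_inv0 {X : Scheme.{0}} [IsIntegral X] [IsLocallyNoetherian X] (y : X)
    {f : X.functionField} (hf : f ≠ 0) :
    Scheme.ord f⁻¹ y = -Scheme.ord f y := by
  have h := Scheme.ord_mul (X := X) (x := y) (f := f) (g := f⁻¹) hf (inv_ne_zero hf)
  rw [mul_inv_cancel₀ hf, ord_one0] at h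
  omega

theorem main : S_HART → S_ORD → S_HOM → S_POS := by
  intro hHart hOrd hHom X Z _ _ _ _ h _ nX nZ H KX gX r hH hgX hloc hKX
  refine ⟨fun z => (r * Scheme.ord (H z) z : ℤ), 1, one_pos, ?_, gX, hgX, ?_⟩
  · intro z
    refine ⟨H z ^ r, pow_ne_zero r (hH z), ?_⟩
    intro y hy hyz
    rw [ord_pow0 y (hH z) r, ← hloc z y hyz hy]
    push_cast
    ring
  · intro x hx e he
    obtain ⟨he0, he1⟩ := he
    rw [hKX x hx]
    set H0 := H (h x) with hH0
    have hH0n : H0 ≠ 0 := hH (h x)
    have hHr : H0 ^ r ≠ 0 := pow_ne_zero r hH0n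
    set u := e * (H0 ^ r)⁻¹ with hu
    have hu0 : u ≠ 0 := mul_ne_zero he0 (inv_ne_zero hHr)
    have hordu : ∀ y : Z, coheight y = 1 → y ⤳ h x → Scheme.ord u y = 0 := by
      intro y hy hyx
      have h1 := he1 y hy hyx
      have h2 := hloc (h x) y hyx hy
      rw [hu, Scheme.ord_mul he0 (inv_ne_zero hHr), ord_inv0 y hHr, ord_pow0 y hH0n r]
      beta_reduce at h1
      rw [h2] at h1
      push_cast at h1
      have h3 : (Scheme.ord e y : ℚ) = ((r * Scheme.ord H0 y : ℤ) : ℚ) := by
        rw [h1]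
        push_cast
        ring
      have h4 : Scheme.ord e y = r * Scheme.ord H0 y := by exact_mod_cast h3
      omega
    have hpush : ∀ v : Z.functionField, v ≠ 0 →
        (∀ y : Z, coheight y = 1 → y ⤳ h x → 0 ≤ Scheme.ord v y) →
        0 ≤ Scheme.ord (functionFieldMap h v) x := by
      intro v hv hvo
      have h1 := hHart Z nZ (h x) v hv hvo
      have h2 := (hHom X Z h X.functionField (RingHom.id _) (functionFieldMap h)
        (fun φ => rfl) x).1
      have h3 : functionFieldMap h v ∈ (locIn (functionFieldMap h) (h x) : Set _) := by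
        obtain ⟨a, ha⟩ := h1
        exact ⟨a, by rw [RingHom.comp_apply, ha]⟩
      have h4 := h2 h3
      have hv' : functionFieldMap h v ≠ 0 := (map_ne_zero _).2 hv
      refine (hOrd X nX x hx _ hv').2 ?_
      obtain ⟨a, ha⟩ := h4
      exact ⟨a, by simpa using ha⟩
    have k1 := hpush u hu0 (fun y hy hyx => (hordu y hy hyx).ge)
    have k2 := hpush u⁻¹ (inv_ne_zero hu0) (fun y hy hyx => by
      rw [ord_inv0 y hu0, hordu y hy hyx, neg_zero])
    have hu0' : functionFieldMap h u ≠ 0 := (map_ne_zero _).2 hu0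
    have hH0' : functionFieldMap h H0 ≠ 0 := (map_ne_zero _).2 hH0n
    rw [map_inv₀, ord_inv0 x hu0'] at k2
    have k3 : Scheme.ord (functionFieldMap h u) x = 0 := by omega
    have k4 : e = u * H0 ^ r := by
      rw [hu, mul_assoc, inv_mul_cancel₀ hHr, mul_one]
    have k5 : Scheme.ord (functionFieldMap h e) x = r * Scheme.ord (functionFieldMap h H0) x := by
      rw [k4, map_mul, map_pow, Scheme.ord_mul hu0' (pow_ne_zero r hH0'), k3,
        ord_pow0 x hH0' r, zero_add]
    rw [k5]
    push_cast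
    ring

end Pool.Agent.W499.CB.POS
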